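import Pool.Agent.helper72.PV.SpecH

set_option autoImplicit false

open Finset

namespace Pool.Agent.PVH

open Pool.Agent.PV Pool.Agent.CZ

theorem OST : OST_stmt := by
  intro n h M pr hT s hs
  have A : ∀ (x : ↥(Om n h pr)) (k : ℕ), (x.1 k).2 + 1 < h k (x.1 k).1 →
      (s x).1 k = ((x.1 k).1, (x.1 k).2 + 1) := by
    intro x k hx
    rw [hs x k]
    obtain ⟨⟨hs1, hs2⟩, _⟩ := x.2 (k + 1)
    have hp : x.1 k = pr k (x.1 (k + 1)) := (x.2 k).2
    by_cases htop : (x.1 (k + 1)).2 + 1 < h (k + 1) (x.1 (k + 1)).1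
    · unfold nxt
      rw [if_pos htop]
      have h1 := hT.suc k (x.1 (k + 1)).1 (x.1 (k + 1)).2 hs1 htop
      rw [h1 (by rw [← hp]; exact hx), ← hp]
    · exfalso
      have h2 : (x.1 (k + 1)).2 = h (k + 1) (x.1 (k + 1)).1 - 1 := by omega
      have h3 := hT.top k (x.1 (k + 1)).1 hs1
      rw [← h2] at h3
      have h4 : x.1 k = (0, h k 0 - 1) := by rw [hp, ← h3]
      rw [h4] at hx
      simp only at hx
      omega
  have B : ∀ (x : ↥(Om n h pr)) (k : ℕ), (x.1 k).2 + 1 = h k (x.1 k).1 → ((s x).1 k).2 = 0 := by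
    intro x k hx
    rw [hs x k]
    obtain ⟨⟨hs1, hs2⟩, _⟩ := x.2 (k + 1)
    have hp : x.1 k = pr k (x.1 (k + 1)) := (x.2 k).2
    unfold nxt
    by_cases htop : (x.1 (k + 1)).2 + 1 < h (k + 1) (x.1 (k + 1)).1
    · rw [if_pos htop]
      exact hT.brk k (x.1 (k + 1)).1 (x.1 (k + 1)).2 hs1 htop (by rw [← hp]; exact hx)
    · rw [if_neg htop]
  refine ⟨A, B, ?_⟩
  intro x k j hj
  obtain ⟨⟨hs1, hs2⟩, _⟩ := x.2 k
  -- upwards
  have U : ∀ m : ℕ, (x.1 k).2 + m < h k (x.1 k).1 →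
      ((s ^ m) x).1 k = ((x.1 k).1, (x.1 k).2 + m) := by
    intro m
    induction m with
    | zero => intro _; rfl
    | succ m ih =>
      intro hm
      have h1 := ih (by omega)
      have h2 : (s ^ (m + 1)) x = s ((s ^ m) x) := by
        rw [pow_succ']; rfl
      rw [h2, A _ _ (by rw [h1]; simpa using (by omega)), h1]
      rfl
  have D : ∀ m : ℕ, m ≤ (x.1 k).2 →
      ((s⁻¹ ^ m) x).1 k = ((x.1 k).1, (x.1 k).2 - m) := by
    intro m
    induction m with
    | zero => intro _; rfl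
    | succ m ih =>
      intro hm
      have h1 := ih (by omega)
      have h2 : (s⁻¹ ^ (m + 1)) x = s⁻¹ ((s⁻¹ ^ m) x) := by
        rw [pow_succ']; rfl
      rw [h2]
      set y := (s⁻¹ ^ m) x with hy
      have h3 : s (s⁻¹ y) = y := s.apply_symm_apply y
      obtain ⟨⟨hw1, hw2⟩, _⟩ := (s⁻¹ y).2 k
      have h4 : ¬ ((s⁻¹ y).1 k).2 + 1 = h k ((s⁻¹ y).1 k).1 := by
        intro h5
        have h6 := B _ _ h5
        rw [h3, h1] at h6
        simp only at h6
        omega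
      have h5 := A (s⁻¹ y) k (by omega)
      rw [h3, h1] at h5
      have h6 := Prod.mk.inj h5
      apply Prod.ext
      · exact h6.1.symm
      · simp only
        have := h6.2
        omega
  by_cases hij : (x.1 k).2 ≤ j
  · refine ⟨((j - (x.1 k).2 : ℕ) : ℤ), ?_⟩
    rw [zpow_natCast, U _ (by omega)]
    apply Prod.ext
    · rfl
    · simp only
      omega
  · refine ⟨-(((x.1 k).2 - j : ℕ) : ℤ), ?_⟩
    rw [zpow_neg, zpow_natCast, ← inv_pow, D _ (by omega)]
    apply Prod.ext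
    · rfl
    · simp only
      omega

end Pool.Agent.PVH
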