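import Pool.Agent.helper72.PV.SpecH

set_option autoImplicit false

open Finset

namespace Pool.Agent.PVH

open Pool.Agent.PV Pool.Agent.CZ

/-- the middle part of the word -/
def TSY_mid (N : ℕ) (f : ℕ → ℕ) : List ℕ :=
  (List.range N).flatMap (fun v => List.replicate (f v) v)

theorem TSY_count_mid (N : ℕ) (f : ℕ → ℕ) (v : ℕ) :
    (TSY_mid N f).count v = if v < N then f v else 0 := by
  induction N with
  | zero => simp [TSY_mid]
  | succ N ih =>
    unfold TSY_mid at ih ⊢
    rw [List.range_succ, List.flatMap_append, List.count_append, ih]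
    simp only [List.flatMap_cons, List.flatMap_nil, List.append_nil, List.count_replicate]
    by_cases h1 : v < N
    · have h2 : v < N + 1 := by omega
      have h3 : ¬ N = v := by omega
      simp [h1, h2, h3]
    · by_cases h4 : v = N
      · subst h4; simp
      · have h2 : ¬ v < N + 1 := by omega
        have h3 : ¬ N = v := by omega
        simp [h1, h2, h3]

theorem TSY_mem_mid (N : ℕ) (f : ℕ → ℕ) (v : ℕ) (hv : v ∈ TSY_mid N f) : v < N := by
  unfold TSY_mid at hv
  rw [List.mem_flatMap] at hv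
  obtain ⟨w, hw, hv⟩ := hv
  rw [List.mem_range] at hw
  rw [List.mem_replicate] at hv
  omega

theorem TSY_sum_mid (N : ℕ) (f h : ℕ → ℕ) :
    ((TSY_mid N f).map h).sum = ∑ v ∈ range N, f v * h v := by
  induction N with
  | zero => simp [TSY_mid]
  | succ N ih =>
    unfold TSY_mid at ih ⊢
    rw [List.range_succ, List.flatMap_append, List.map_append, List.sum_append, ih,
      Finset.sum_range_succ]
    simp

theorem TSY_exists (hWRD : WRD_stmt) (N : ℕ) (h m : ℕ → ℕ) (hN : 0 < N)
    (hp : ∀ v, v < N → 0 < h v) (hm : ∀ v, v < N → 3 ≤ m v) (S : ℕ)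
    (hS : S = ∑ v ∈ range N, m v * h v) :
    ∃ q : ℕ → ℕ × ℕ,
      (∀ i, i < S → (q i).1 < N ∧ (q i).2 < h (q i).1) ∧
      q 0 = (0, 0) ∧
      q (S - 1) = (0, h 0 - 1) ∧
      (∀ i, i + 1 < S → (q i).2 + 1 < h (q i).1 → q (i + 1) = ((q i).1, (q i).2 + 1)) ∧
      (∀ i, i + 1 < S → (q i).2 + 1 = h (q i).1 → (q (i + 1)).2 = 0) ∧
      (∀ v i, v < N → i < h v → ((range S).filter (fun j => q j = (v, i))).card = m v) := by
  set f : ℕ → ℕ := fun v => if v = 0 then m 0 - 2 else m v with hf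
  set l : List ℕ := 0 :: (TSY_mid N f ++ [0]) with hl
  have hmem : ∀ v ∈ l, v < N := by
    intro v hv
    rw [hl, List.mem_cons, List.mem_append, List.mem_singleton] at hv
    rcases hv with h1 | h1 | h1
    · omega
    · exact TSY_mem_mid N f v h1
    · omega
  have hcount : ∀ v, v < N → l.count v = m v := by
    intro v hv
    rw [hl, List.count_cons, List.count_append, TSY_count_mid, if_pos hv, hf]
    by_cases h0 : v = 0
    · subst h0
      have := hm 0 hN
      simp
      omega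
    · have h0' : ¬ 0 = v := by omega
      simp [h0, h0']
  have hsum : (l.map h).sum = S := by
    rw [hl, List.map_cons, List.map_append, List.sum_cons, List.sum_append, TSY_sum_mid, hS]
    obtain ⟨N', rfl⟩ : ∃ N', N = N' + 1 := ⟨N - 1, by omega⟩
    rw [Finset.sum_range_succ', Finset.sum_range_succ']
    have h1 : ∑ i ∈ range N', f (i + 1) * h (i + 1) = ∑ i ∈ range N', m (i + 1) * h (i + 1) := by
      apply Finset.sum_congr rfl
      intro i _
      rw [hf]
      simp
    rw [h1, hf]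
    simp only [if_true, List.map_cons, List.map_nil, List.sum_cons, List.sum_nil]
    have h2 := hm 0 hN
    obtain ⟨r, hr⟩ : ∃ r, m 0 = r + 2 := ⟨m 0 - 2, by omega⟩
    rw [hr, Nat.add_sub_cancel]
    ring
  obtain ⟨q, q1, q2, q3, q4, q5, q6⟩ := hWRD h l (fun v hv => hp v (hmem v hv)) (by simp [hl])
  rw [hsum] at q1 q3 q4 q5 q6
  refine ⟨q, fun i hi => ⟨hmem _ (q1 i hi).1, (q1 i hi).2⟩, q2 0 (by simp [hl]), q3 0 ?_, q4, q5,
    fun v i hv hi => ?_⟩
  · rw [hl, ← List.cons_append, List.getLast?_append]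
    simp
  · rw [q6 v i hi, hcount v hv]

theorem TSY (hWRD : WRD_stmt) : TSY_stmt := by
  intro n h M hB
  have key : ∀ k v' : ℕ, ∃ q : ℕ → ℕ × ℕ, v' < n (k + 1) →
      (∀ i, i < h (k + 1) v' → (q i).1 < n k ∧ (q i).2 < h k (q i).1) ∧
      q 0 = (0, 0) ∧
      q (h (k + 1) v' - 1) = (0, h k 0 - 1) ∧
      (∀ i, i + 1 < h (k + 1) v' → (q i).2 + 1 < h k (q i).1 → q (i + 1) = ((q i).1, (q i).2 + 1)) ∧
      (∀ i, i + 1 < h (k + 1) v' → (q i).2 + 1 = h k (q i).1 → (q (i + 1)).2 = 0) ∧
      (∀ v i, v < n k → i < h k v →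
        ((range (h (k + 1) v')).filter (fun j => q j = (v, i))).card = M k v' v) := by
    intro k v'
    by_cases hv' : v' < n (k + 1)
    · obtain ⟨q, hq⟩ := TSY_exists hWRD (n k) (h k) (M k v') (hB.npos k) (hB.hpos k)
        (fun v hv => hB.three k v' v hv' hv) (h (k + 1) v') (hB.ht k v' hv')
      exact ⟨q, fun _ => hq⟩
    · exact ⟨fun _ => (0, 0), fun h1 => absurd h1 hv'⟩
  choose q hq using key
  refine ⟨fun k p => q k p.1 p.2, ?_⟩
  exact
    { toBRT := hB
      mem := fun k p hp => (hq k p.1 hp.1).1 p.2 hp.2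
      bot := fun k v' hv' => (hq k v' hv').2.1
      top := fun k v' hv' => (hq k v' hv').2.2.1
      suc := fun k v' i hv' hi hi2 => (hq k v' hv').2.2.2.1 i hi hi2
      brk := fun k v' i hv' hi hi2 => (hq k v' hv').2.2.2.2.1 i hi hi2
      cnt := fun k v' v i hv' hv hi => (hq k v' hv').2.2.2.2.2 v i hv hi }

end Pool.Agent.PVH
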