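import Pool.Agent.helper72.PV.SpecH

set_option autoImplicit false

open Finset

namespace Pool.Agent.PVH

open Pool.Agent.PV Pool.Agent.CZ

theorem WRD_card_add (a s : ℕ) (P : ℕ → Prop) [DecidablePred P] :
    ((range (a + s)).filter P).card =
      ((range a).filter P).card + ((range s).filter (fun j => P (a + j))).card := by
  rw [Finset.card_filter, Finset.card_filter, Finset.card_filter, Finset.sum_range_add]

theorem WRD_card_one (a v i m : ℕ) (hi : i < m) (hm : v = a → i < m) :
    ((range m).filter (fun j => (a, j) = (v, i))).card = if v = a then 1 else 0 := by
  by_cases h : v = a
  · subst h
    have : (range m).filter (fun j => (v, j) = (v, i)) = {i} := by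
      ext j
      simp only [Finset.mem_filter, Finset.mem_range, Prod.mk.injEq, true_and,
        Finset.mem_singleton]
      constructor
      · rintro ⟨_, h2⟩; exact h2
      · rintro rfl; exact ⟨hi, rfl⟩
    rw [this]
    simp
  · rw [if_neg h, Finset.card_eq_zero, Finset.filter_eq_empty_iff]
    intro j _ h2
    exact h (Prod.mk.inj h2).1.symm

theorem WRD : WRD_stmt := by
  intro h l
  induction l with
  | nil => intro _ h0; exact absurd rfl h0
  | cons a l' ih =>
    intro hpos _
    have ha : 0 < h a := hpos a (by simp)
    by_cases hl : l' = []
    · subst hl
      refine ⟨fun i => (a, i), ?_, ?_, ?_, ?_, ?_, ?_⟩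
      · intro i hi
        simp at hi
        exact ⟨by simp, hi⟩
      · intro b hb
        simp at hb
        simp [hb]
      · intro b hb
        simp at hb
        subst hb
        simp
      · intro i _ _
        rfl
      · intro i hi hi2
        simp at hi hi2
        omega
      · intro v i hi
        have h1 : (List.map h [a]).sum = h a := by simp
        rw [h1]
        by_cases hv : v = a
        · subst hv
          rw [WRD_card_one v v i (h v) hi (fun _ => hi)]
          simp
        · have : (range (h a)).filter (fun j => (a, j) = (v, i)) = ∅ := by
            rw [Finset.filter_eq_empty_iff]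
            intro j _ h2
            exact hv (Prod.mk.inj h2).1.symm
          rw [this]
          rw [Finset.card_empty, List.count_cons]
          have hav : ¬ a = v := fun h3 => hv h3.symm
          simp [hav]
    · obtain ⟨q', h1, h2, h3, h4, h5, h6⟩ := ih (fun v hv => hpos v (by simp [hv])) hl
      obtain ⟨b, l'', hb⟩ : ∃ b l'', l' = b :: l'' := by
        cases l' with
        | nil => exact absurd rfl hl
        | cons b l'' => exact ⟨b, l'', rfl⟩
      set s' := (l'.map h).sum with hs'
      have hs0 : 0 < s' := by
        have : 0 < h b := hpos b (by simp [hb])
        rw [hs', hb]
        simp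
        omega
      have hsum : (List.map h (a :: l')).sum = h a + s' := by simp [hs']
      rw [hsum]
      have hq0 : q' 0 = (b, 0) := h2 b (by simp [hb])
      refine ⟨fun i => if i < h a then (a, i) else q' (i - h a), ?_, ?_, ?_, ?_, ?_, ?_⟩
      · intro i hi
        by_cases hia : i < h a
        · simp only [if_pos hia]
          exact ⟨by simp, hia⟩
        · simp only [if_neg hia]
          obtain ⟨h7, h8⟩ := h1 (i - h a) (by omega)
          exact ⟨by simp [h7], h8⟩
      · intro c hc
        simp at hc
        simp only [if_pos ha]
        rw [hc]
      · intro c hc
        have hc' : l'.getLast? = some c := by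
          rw [hb, List.getLast?_cons_cons] at hc
          rw [hb]; exact hc
        have hlt : ¬ (h a + s' - 1 < h a) := by omega
        simp only [if_neg hlt]
        have : h a + s' - 1 - h a = s' - 1 := by omega
        rw [this]
        exact h3 c hc'
      · intro i hi hi2
        by_cases hia : i < h a
        · simp only [if_pos hia] at hi2 ⊢
          simp only [if_pos hi2]
        · simp only [if_neg hia] at hi2 ⊢
          have hia2 : ¬ i + 1 < h a := by omega
          simp only [if_neg hia2]
          have : i + 1 - h a = (i - h a) + 1 := by omega
          rw [this]
          exact h4 (i - h a) (by omega) hi2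
      · intro i hi hi2
        by_cases hia : i < h a
        · simp only [if_pos hia] at hi2 ⊢
          have hia2 : ¬ i + 1 < h a := by omega
          simp only [if_neg hia2]
          have : i + 1 - h a = 0 := by omega
          rw [this, hq0]
        · simp only [if_neg hia] at hi2 ⊢
          have hia2 : ¬ i + 1 < h a := by omega
          simp only [if_neg hia2]
          have : i + 1 - h a = (i - h a) + 1 := by omega
          rw [this]
          exact h5 (i - h a) (by omega) hi2
      · intro v i hi
        rw [WRD_card_add]
        have e1 : (range (h a)).filter (fun j => (if j < h a then (a, j) else q' (j - h a)) = (v, i))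
            = (range (h a)).filter (fun j => (a, j) = (v, i)) := by
          apply Finset.filter_congr
          intro j hj
          rw [if_pos (Finset.mem_range.1 hj)]
        have e2 : (range s').filter (fun j => (if h a + j < h a then (a, h a + j) else
            q' (h a + j - h a)) = (v, i)) = (range s').filter (fun j => q' j = (v, i)) := by
          apply Finset.filter_congr
          intro j _
          have : ¬ h a + j < h a := by omega
          rw [if_neg this, Nat.add_sub_cancel_left]
        rw [e1, e2, h6 v i hi, List.count_cons]
        by_cases hv : v = a
        · subst hv
          rw [WRD_card_one v v i (h v) hi (fun _ => hi)]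
          simp
          omega
        · have : (range (h a)).filter (fun j => (a, j) = (v, i)) = ∅ := by
            rw [Finset.filter_eq_empty_iff]
            intro j _ h2
            exact hv (Prod.mk.inj h2).1.symm
          rw [this]
          have hav : ¬ a = v := fun h3 => hv h3.symm
          simp [hav]

end Pool.Agent.PVH
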